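import Mathlib
import Pool.Agent.Results.MP_a36908_lc.SuperclubInseparable

set_option autoImplicit false

open Cardinal Set

/-!
# The stick principle gives an inseparable family without Luzin subfamilies

Stronger form of the starting theorem `SuperclubInseparable`: instead of superclub only the stick
principle is used (there are at most `ℵ₁` infinite subsets of `ω₁` such that every uncountable
subset of `ω₁` contains one of them), which follows from superclub, from the club principle and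
from the continuum hypothesis.  No uncountable subfamily is a Luzin sequence in any enumeration.
-/

namespace Pool.Agent.Results.MP_a36908_lc.StickInseparable

open Pool.Agent.Results.MP_a36908_lc.SuperclubInseparable

/-- The stick principle: there is a family of at most `ℵ₁` infinite subsets of `ω₁` such that
every uncountable subset of `ω₁` contains a member of the family. -/
def Stick : Prop :=
  ∃ F : Set (Set Om), #F ≤ ℵ₁ ∧ (∀ S ∈ F, S.Infinite) ∧
    ∀ X : Set Om, ¬ X.Countable → ∃ S ∈ F, S ⊆ X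

/-- `a < ω₁` is a limit ordinal. -/
def IsLimitPoint (a : Om) : Prop := (∃ b, b < a) ∧ ∀ b < a, ∃ c, b < c ∧ c < a

/-- The club principle: there are cofinal sets `S a ⊆ a` for the limit ordinals `a < ω₁` such that
every uncountable subset of `ω₁` contains some `S a`. -/
def ClubPrinciple : Prop :=
  ∃ S : Om → Set Om, (∀ a, IsLimitPoint a → S a ⊆ Iio a ∧ ∀ b < a, ∃ c ∈ S a, b < c) ∧
    ∀ X : Set Om, ¬ X.Countable → ∃ a, IsLimitPoint a ∧ S a ⊆ X

/-- The family `A` is tail generic: for every uncountable `X ⊆ ω₁` there is `c < ω₁` such that for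
ALL `a ≥ c` (1) for some `n` infinitely many `b ∈ X` below `c` satisfy `A a ∩ A b ⊆ n`, and
(2) for every `n` some `b ∈ X` below `c` does not satisfy it. -/
def TailGeneric (A : Om → Set ℕ) : Prop :=
  ∀ X : Set Om, ¬ X.Countable → ∃ c : Om, ∀ a, c ≤ a →
    (∃ n, {b | b ∈ X ∧ b < c ∧ A a ∩ A b ⊆ Iio n}.Infinite) ∧
      ∀ n, ∃ b ∈ X, b < c ∧ ¬ (A a ∩ A b ⊆ Iio n)

lemma mk_Om : #Om = ℵ₁ := by
  simp only [Cardinal.mk_toType, Cardinal.card_ord]

/-- The members of a stick family, thinned out and indexed by `ω₁`. -/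
lemma exists_indexed (h : Stick) : ∃ T : Om → Set Om, ∀ X : Set Om, ¬ X.Countable →
    ∃ ξ, T ξ ⊆ X ∧ (T ξ).Infinite ∧ (T ξ).Countable := by
  classical
  obtain ⟨F, hF, hinf, hst⟩ := h
  rw [← mk_Om] at hF
  obtain ⟨g⟩ := Cardinal.le_def _ _ |>.1 hF
  choose p hp1 hp2 hp3 using fun s : F => exists_inf_countable (hinf s.1 s.2)
  refine ⟨fun ξ => if h : ∃ s, g s = ξ then p h.choose else ∅, ?_⟩
  intro X hX
  obtain ⟨S, hS, hSX⟩ := hst X hX
  have hex : ∃ s, g s = g ⟨S, hS⟩ := ⟨_, rfl⟩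
  have he : hex.choose = ⟨S, hS⟩ := g.injective hex.choose_spec
  have hT : (if h : ∃ s, g s = g ⟨S, hS⟩ then p h.choose else ∅) = p ⟨S, hS⟩ := by
    rw [dif_pos hex, he]
  refine ⟨g ⟨S, hS⟩, ?_, ?_, ?_⟩
  · show (if h : ∃ s, g s = g ⟨S, hS⟩ then p h.choose else ∅) ⊆ X
    rw [hT]
    exact (hp1 ⟨S, hS⟩).trans hSX
  · show (if h : ∃ s, g s = g ⟨S, hS⟩ then p h.choose else ∅).Infinite
    rw [hT]
    exact hp2 ⟨S, hS⟩
  · show (if h : ∃ s, g s = g ⟨S, hS⟩ then p h.choose else ∅).Countable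
    rw [hT]
    exact hp3 ⟨S, hS⟩

/-- The main construction. -/
theorem exists_tailGeneric (h : Stick) :
    ∃ A : Om → Set ℕ, IsAlmostDisjoint A ∧ TailGeneric A := by
  classical
  obtain ⟨T, hT⟩ := exists_indexed h
  obtain ⟨f, hf⟩ := exists_family T
  refine ⟨fun a => code (f a), ⟨fun a => code_infinite _, ?_⟩, ?_⟩
  · have key : ∀ a b : Om, b < a → (code (f a) ∩ code (f b)).Finite := by
      intro a b hab
      obtain ⟨n, hn⟩ := (hf a).2.1 b hab
      refine ((Set.finite_Iio n).image (fun m => Nat.pair m (f a m))).subset ?_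
      intro x hx
      obtain ⟨m, rfl, hm⟩ := code_inter hx
      refine ⟨m, ?_, rfl⟩
      by_contra hcon
      exact hn m (by simpa using hcon) hm
    intro a b hab
    rcases lt_or_gt_of_ne hab with h1 | h1
    · have := key b a h1
      rwa [inter_comm] at this
    · exact key a b h1
  · intro X hX
    obtain ⟨ξ, hξ1, hξ2, hξ3⟩ := hT X hX
    obtain ⟨a0, ha0⟩ := exists_bound hξ3
    refine ⟨max ξ a0, fun a ha => ?_⟩
    have hξa : ξ ≤ a := (le_max_left _ _).trans ha
    have hlt : ∀ b ∈ T ξ, b < max ξ a0 := fun b hb => (ha0 b hb).trans_le (le_max_right _ _)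
    have hsub : T ξ ⊆ Iio a := fun b hb => (hlt b hb).trans_le ha
    obtain ⟨⟨n0, hinf⟩, h2⟩ := (hf a).2.2 ξ hξa hsub hξ2
    constructor
    · obtain ⟨N, hN⟩ : ∃ N, ∀ m < n0, Nat.pair m (f a m) < N := by
        have : ((fun m => Nat.pair m (f a m)) '' Iio n0).Finite := (Set.finite_Iio n0).image _
        obtain ⟨M, hM⟩ := this.bddAbove
        exact ⟨M + 1, fun m hm => Nat.lt_succ_of_le (hM ⟨m, hm, rfl⟩)⟩
      refine ⟨N, hinf.mono ?_⟩
      rintro b ⟨hb, hb'⟩
      refine ⟨hξ1 hb, hlt b hb, ?_⟩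
      intro x hx
      obtain ⟨m, rfl, hm⟩ := code_inter hx
      apply hN
      by_contra hcon
      exact hb' m (by simpa using hcon) hm
    · intro n
      obtain ⟨b, hb, m, hm, heq⟩ := h2 n
      refine ⟨b, hξ1 hb, hlt b hb, fun hcon => ?_⟩
      have h3 : Nat.pair m (f a m) ∈ Iio n :=
        hcon ⟨⟨m, rfl⟩, ⟨m, by simp [heq]⟩⟩
      have h4 : m ≤ Nat.pair m (f a m) := Nat.left_le_pair _ _
      simp only [mem_Iio] at h3
      omega

lemma unc_of_mk {Z : Set Om} (hZ : #Z = ℵ₁) : ¬ Z.Countable := by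
  intro hc
  rw [← Cardinal.le_aleph0_iff_set_countable, hZ, ← Cardinal.succ_aleph0] at hc
  exact absurd hc (not_le.2 (Order.lt_succ _))

/-- A tail generic almost disjoint family is inseparable. -/
theorem inseparable_of_tail {A : Om → Set ℕ} (h1 : IsAlmostDisjoint A) (h2 : TailGeneric A) :
    IsInseparable A := by
  refine ⟨h1, ?_⟩
  rintro B ⟨-, hU, hW⟩
  have hU' := unc_of_mk hU
  have hW' := unc_of_mk hW
  have hpig : ∃ n, ¬ {b : Om | A b \ B ⊆ Iio n}.Countable := by
    by_contra hcon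
    push Not at hcon
    apply hU'
    refine (countable_iUnion hcon).mono ?_
    intro b hb
    have hb' : (A b \ B).Finite := hb
    obtain ⟨M, hM⟩ := hb'.bddAbove
    refine mem_iUnion.2 ⟨M + 1, ?_⟩
    intro x hx
    exact Nat.lt_succ_of_le (hM hx)
  obtain ⟨n, hn⟩ := hpig
  obtain ⟨c, hc⟩ := h2 _ hn
  obtain ⟨a, haW, hca⟩ := exists_gt_mem hW' c
  have haW' : (A a \ Bᶜ).Finite := haW
  obtain ⟨M, hM⟩ := haW'.bddAbove
  obtain ⟨b, hb, -, hb2⟩ := (hc a hca.le).2 (max n (M + 1))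
  obtain ⟨x, ⟨hxa, hxb⟩, hx⟩ := Set.not_subset.1 hb2
  have hx' : max n (M + 1) ≤ x := by simpa using hx
  by_cases hxB : x ∈ B
  · have h3 : x ≤ M := hM ⟨hxa, by simpa using hxB⟩
    have h4 : M + 1 ≤ x := (le_max_right _ _).trans hx'
    omega
  · have h3 : x ∈ Iio n := hb ⟨hxb, hxB⟩
    have h4 : n ≤ x := (le_max_left _ _).trans hx'
    simp only [mem_Iio] at h3
    omega

/-- No uncountable subfamily of a tail generic family is a Luzin sequence, in any enumeration. -/
theorem not_luzin_of_tail {A : Om → Set ℕ} (h2 : TailGeneric A) (e : Om → Om)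
    (he : Function.Injective e) : ¬ IsLuzin (fun i => A (e i)) := by
  rintro ⟨-, hL⟩
  have hr : ¬ (range e).Countable := by
    intro hc
    apply uncountable_univ
    have h3 : (e ⁻¹' (range e)).Countable := hc.preimage_of_injOn he.injOn
    rwa [Set.preimage_range] at h3
  obtain ⟨c, hc⟩ := h2 _ hr
  have hcount : (e ⁻¹' (Iio c)).Countable := (countable_Iio c).preimage_of_injOn he.injOn
  obtain ⟨i, hi⟩ := exists_bound hcount
  have hci : c ≤ e i := by
    by_contra hcon
    exact lt_irrefl i (hi i (not_le.1 hcon))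
  obtain ⟨n, hn⟩ := (hc (e i) hci).1
  apply hn
  refine ((hL i n).image e).subset ?_
  rintro b ⟨⟨j, rfl⟩, hb2, hb3⟩
  exact ⟨j, ⟨hi j hb2, hb3⟩, rfl⟩

/-- Superclub implies the stick principle. -/
theorem stick_of_superclub (h : Superclub) : Stick := by
  obtain ⟨S, hS⟩ := h
  refine ⟨{Z | Z.Infinite ∧ ∃ ξ, Z = S ξ}, ?_, fun Z hZ => hZ.1, fun X hX => ?_⟩
  · rw [← mk_Om]
    refine (Cardinal.mk_le_mk_of_subset (t := range S) ?_).trans Cardinal.mk_range_le
    rintro Z ⟨-, ξ, rfl⟩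
    exact ⟨ξ, rfl⟩
  · obtain ⟨ξ, h1, h2⟩ := guess hS hX
    exact ⟨S ξ, ⟨h2, ξ, rfl⟩, h1⟩

/-- The club principle implies the stick principle. -/
theorem stick_of_club (h : ClubPrinciple) : Stick := by
  obtain ⟨S, hS1, hS2⟩ := h
  refine ⟨{Z | ∃ ξ, IsLimitPoint ξ ∧ Z = S ξ}, ?_, ?_, fun X hX => ?_⟩
  · rw [← mk_Om]
    refine (Cardinal.mk_le_mk_of_subset (t := range S) ?_).trans Cardinal.mk_range_le
    rintro Z ⟨ξ, -, rfl⟩
    exact ⟨ξ, rfl⟩
  · rintro Z ⟨ξ, hξ, rfl⟩ hfin
    obtain ⟨h1, h2⟩ := hS1 ξ hξ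
    obtain ⟨b, hb⟩ := hξ.1
    obtain ⟨c, hc, -⟩ := h2 b hb
    obtain ⟨m, hm, hmax⟩ := Set.exists_max_image (S ξ) id hfin ⟨c, hc⟩
    obtain ⟨d, hd, hmd⟩ := h2 m (h1 hm)
    exact absurd (hmax d hd) (not_le.2 hmd)
  · obtain ⟨a, h1, h2⟩ := hS2 X hX
    exact ⟨S a, ⟨a, h1, rfl⟩, h2⟩

/-- The continuum hypothesis implies the stick principle. -/
theorem stick_of_ch (h : (𝔠 : Cardinal.{0}) = ℵ₁) : Stick := by
  refine ⟨{Z | Z.Infinite ∧ Z.Countable}, ?_, fun Z hZ => hZ.1, fun X hX => ?_⟩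
  · have h1 : #{Z : Set Om | Z.Infinite ∧ Z.Countable} ≤ #(ℕ → Om) := by
      refine (Cardinal.mk_le_mk_of_subset (t := range (fun g : ℕ → Om => range g)) ?_).trans
        Cardinal.mk_range_le
      rintro Z ⟨hZ1, hZ2⟩
      obtain ⟨g, hg⟩ := hZ2.exists_eq_range hZ1.nonempty
      exact ⟨g, hg.symm⟩
    refine h1.trans ?_
    rw [← Cardinal.power_def, mk_Om, ← h, Cardinal.mk_nat, Cardinal.continuum_power_aleph0]
  · obtain ⟨Y, h1, h2, h3⟩ := exists_inf_countable (X := X) (fun hfin => hX hfin.countable)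
    exact ⟨Y, ⟨h2, h3⟩, h1⟩

/-- **The stick principle implies that there is an inseparable family no uncountable subfamily of
which is a Luzin sequence in any enumeration**; superclub, the club principle and the continuum
hypothesis each imply the stick principle; in particular superclub implies that there is an
inseparable family without Luzin subsequence. -/
theorem result :
    (Stick → ∃ A : Om → Set ℕ, IsInseparable A ∧ TailGeneric A ∧
      ∀ e : Om → Om, Function.Injective e → ¬ IsLuzin (fun i => A (e i))) ∧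
    (Superclub → Stick) ∧ (ClubPrinciple → Stick) ∧ ((𝔠 : Cardinal.{0}) = ℵ₁ → Stick) ∧
    (Superclub → ∃ A : Om → Set ℕ, IsInseparable A ∧ ¬ ContainsLuzin A) := by
  have main : Stick → ∃ A : Om → Set ℕ, IsInseparable A ∧ TailGeneric A ∧
      ∀ e : Om → Om, Function.Injective e → ¬ IsLuzin (fun i => A (e i)) := by
    intro h
    obtain ⟨A, h1, h2⟩ := exists_tailGeneric h
    exact ⟨A, inseparable_of_tail h1 h2, h2, fun e he => not_luzin_of_tail h2 e he⟩
  refine ⟨main, stick_of_superclub, stick_of_club, stick_of_ch, fun h => ?_⟩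
  obtain ⟨A, h1, -, h3⟩ := main (stick_of_superclub h)
  refine ⟨A, h1, ?_⟩
  rintro ⟨X, -, e, hL⟩
  exact h3 (fun i => (e i).1) (fun i j hij => e.injective (Subtype.ext hij)) hL

end Pool.Agent.Results.MP_a36908_lc.StickInseparable
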